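import Mathlib
import Pool.Agent.H10.HM.Main

set_option autoImplicit false

namespace Pool.Agent.Results.MP_e8b69e_co.CoveringBound

open Finset

/-- the matching number of `F` is `s` -/
def HasNu {n : ℕ} (F : Finset (Finset (Fin n))) (s : ℕ) : Prop :=
  IsGreatest {m : ℕ | ∃ M ⊆ F, M.card = m ∧ (M : Set (Finset (Fin n))).PairwiseDisjoint id} s

/-- the covering number of `F` is `c` -/
def HasTau {n : ℕ} (F : Finset (Finset (Fin n))) (c : ℕ) : Prop :=
  IsLeast {c : ℕ | ∃ Y : Finset (Fin n), Y.card = c ∧ ∀ e ∈ F, (e ∩ Y).Nonempty} c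

/-- the triangle family: the `k`-subsets of `W ∪ {x, y, z}` which contain none or exactly two of
`x`, `y`, `z` -/
def Tri {n : ℕ} (k : ℕ) (W : Finset (Fin n)) (x y z : Fin n) : Finset (Finset (Fin n)) :=
  (powersetCard k (W ∪ {x, y, z})).filter fun f => f ∩ {x, y, z} = ∅ ∨ (f ∩ {x, y, z}).card = 2

private lemma gap {k s : ℕ} (hk : 2 ≤ k) (hs : 2 ≤ s) :
    (s * k + k - 3).choose k + 3 * (s * k + k - 3).choose (k - 2) < (s * k + k - 1).choose k := by
  obtain ⟨j, rfl⟩ : ∃ j, k = j + 2 := ⟨k - 2, by omega⟩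
  obtain ⟨n, hn⟩ : ∃ n, n = s * (j + 2) + (j + 2) - 3 := ⟨_, rfl⟩
  have h0 : 2 * (j + 2) ≤ s * (j + 2) := Nat.mul_le_mul_right _ hs
  have e1 : s * (j + 2) + (j + 2) - 1 = n + 2 := by omega
  have e2 : j + 2 - 2 = j := by omega
  rw [e1, e2, ← hn]
  have h1 : (n + 2).choose (j + 2) = (n + 1).choose (j + 1) + (n + 1).choose (j + 2) := Nat.choose_succ_succ _ _
  have h2 : (n + 1).choose (j + 1) = n.choose j + n.choose (j + 1) := Nat.choose_succ_succ _ _
  have h3 : (n + 1).choose (j + 2) = n.choose (j + 1) + n.choose (j + 2) := Nat.choose_succ_succ _ _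
  have h4 : n.choose (j + 1) * (j + 1) = n.choose j * (n - j) := Nat.choose_succ_right_eq n j
  have h5 : j + 1 < n - j := by omega
  have h6 : 0 < n.choose j := Nat.choose_pos (by omega)
  have h7 : n.choose j * (j + 1) < n.choose (j + 1) * (j + 1) := by
    rw [h4]
    exact Nat.mul_lt_mul_of_pos_left h5 h6
  have h8 : n.choose j < n.choose (j + 1) := Nat.lt_of_mul_lt_mul_right h7
  omega

/-- For every `k ≥ 1` there is `s₀` such that for all `s > s₀` every `k`-graph `F` on
`{1, …, n}` (any `n`) with matching number `s` and covering number `s * k` has at most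
`(s * k + k - 1).choose k` edges; more precisely it is the complete `k`-graph on `s * k + k - 1`
vertices, or it has fewer than
`g = (s * k + k - 3).choose k + 3 * (s * k + k - 3).choose (k - 2)` edges, or it has `g` edges and is
a triangle family (`k ≥ 2` in the last two cases). These families have matching number `s`
and covering number `s * k` for all `s ≥ 1`, and `g` is smaller than the bound if `k, s ≥ 2`. -/
theorem result :
    (∀ k : ℕ, 1 ≤ k → ∃ s₀ : ℕ, ∀ s : ℕ, s₀ < s →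
      ∀ (n : ℕ) (F : Finset (Finset (Fin n))), (∀ e ∈ F, e.card = k) →
        IsGreatest {m : ℕ | ∃ M ⊆ F, M.card = m ∧
          (M : Set (Finset (Fin n))).PairwiseDisjoint id} s →
        IsLeast {c : ℕ | ∃ Y : Finset (Fin n), Y.card = c ∧ ∀ e ∈ F, (e ∩ Y).Nonempty} (s * k) →
        F.card ≤ (s * k + k - 1).choose k ∧
        ((∃ W : Finset (Fin n), W.card = s * k + k - 1 ∧ F = powersetCard k W) ∨
          (2 ≤ k ∧ F.card < (s * k + k - 3).choose k + 3 * (s * k + k - 3).choose (k - 2)) ∨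
          (2 ≤ k ∧ F.card = (s * k + k - 3).choose k + 3 * (s * k + k - 3).choose (k - 2) ∧
            ∃ (W : Finset (Fin n)) (x y z : Fin n), W.card = s * k + k - 3 ∧
              x ≠ y ∧ y ≠ z ∧ x ≠ z ∧ x ∉ W ∧ y ∉ W ∧ z ∉ W ∧ F = Tri k W x y z))) ∧
    (∀ k s n : ℕ, 1 ≤ k → 1 ≤ s → ∀ W : Finset (Fin n), W.card = s * k + k - 1 →
      HasNu (powersetCard k W) s ∧ HasTau (powersetCard k W) (s * k)) ∧
    (∀ k s n : ℕ, 2 ≤ k → 1 ≤ s → ∀ (W : Finset (Fin n)) (x y z : Fin n),
      W.card = s * k + k - 3 → x ≠ y → y ≠ z → x ≠ z → x ∉ W → y ∉ W → z ∉ W →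
      HasNu (Tri k W x y z) s ∧ HasTau (Tri k W x y z) (s * k) ∧
        (Tri k W x y z).card =
          (s * k + k - 3).choose k + 3 * (s * k + k - 3).choose (k - 2)) ∧
    (∀ k s : ℕ, 2 ≤ k → 2 ≤ s →
      (s * k + k - 3).choose k + 3 * (s * k + k - 3).choose (k - 2) < (s * k + k - 1).choose k) := by
  obtain ⟨h1, h2, h3⟩ := Pool.Agent.H10.HM.main
  exact ⟨h1, fun k s n hk hs W hW => ⟨(h2 k s n hk hs W hW).1, (h2 k s n hk hs W hW).2.1⟩, h3,
    fun k s hk hs => gap hk hs⟩

end Pool.Agent.Results.MP_e8b69e_co.CoveringBound
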